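import Pool.Agent.V11202.NH.Fin

/-!
# Derivative and shift difference sharing three values, infinite hyper-order

The implication holds: if `f` is meromorphic with infinite hyper-order, `c ≠ 0`, and `f'` and
`Δ_c f` share two distinct finite values and `∞` CM, then `f' = Δ_c f`.
-/

set_option autoImplicit false

open Complex Set Metric Filter Topology ValueDistribution
open Pool.Agent.V11202.NH

namespace Pool.Agent.Results.MP_6db049_an.InfiniteHyperOrder

theorem E4.cexp {U : ℂ → ℂ} (h : Pg U) : E4 (fun z => Complex.exp (U z)) := by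
  obtain ⟨K, hK, h⟩ := h
  refine ⟨K, hK, fun z => ?_⟩
  rw [Complex.norm_exp]
  exact Real.exp_le_exp.2 ((Complex.re_le_norm _).trans (h z))

theorem E4.mul {f g : ℂ → ℂ} (hf : E4 f) (hg : E4 g) : E4 (fun z => f z * g z) := by
  obtain ⟨A, hA, hf⟩ := hf
  obtain ⟨B, hB, hg⟩ := hg
  refine ⟨A + B, by positivity, fun z => ?_⟩
  rw [norm_mul, add_mul, Real.exp_add]
  exact mul_le_mul (hf z) (hg z) (norm_nonneg _) (Real.exp_pos _).le

theorem E4.sub {f g : ℂ → ℂ} (hf : E4 f) (hg : E4 g) : E4 (fun z => f z - g z) := by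
  obtain ⟨A, hA, hf⟩ := hf
  obtain ⟨B, hB, hg⟩ := hg
  refine ⟨1 + (A + B), by positivity, fun z => ?_⟩
  have h1 := one_le_p4 z
  have h2 : (2 : ℝ) ≤ Real.exp (1 * (1 + ‖z‖) ^ 4) := by
    have := Real.add_one_le_exp (1 * (1 + ‖z‖) ^ 4)
    linarith
  have h3 : Real.exp (A * (1 + ‖z‖) ^ 4) ≤ Real.exp ((A + B) * (1 + ‖z‖) ^ 4) := by
    apply Real.exp_le_exp.2
    gcongr
    linarith
  have h4 : Real.exp (B * (1 + ‖z‖) ^ 4) ≤ Real.exp ((A + B) * (1 + ‖z‖) ^ 4) := by
    apply Real.exp_le_exp.2
    gcongr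
    linarith
  have h5 : 0 < Real.exp ((A + B) * (1 + ‖z‖) ^ 4) := Real.exp_pos _
  calc ‖f z - g z‖ ≤ ‖f z‖ + ‖g z‖ := norm_sub_le _ _
    _ ≤ 2 * Real.exp ((A + B) * (1 + ‖z‖) ^ 4) := by linarith [hf z, hg z]
    _ ≤ Real.exp (1 * (1 + ‖z‖) ^ 4) * Real.exp ((A + B) * (1 + ‖z‖) ^ 4) := by gcongr
    _ = _ := by rw [← Real.exp_add]; ring_nf

/-- If `f` is meromorphic on `ℂ` with hyper-order `∞`, `c ≠ 0`, `a₁ ≠ a₂` are finite, and the
derivative `f'` and the difference `f (z + c) - f z` share `a₁`, `a₂` and `∞` CM, then they are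
equal as meromorphic functions (everywhere outside a closed discrete set). -/
theorem result (f : ℂ → ℂ) (hf : Meromorphic f) (hρ : hyperOrder f = ⊤) (c : ℂ) (hc : c ≠ 0)
    (a₁ a₂ : ℂ) (ha : a₁ ≠ a₂)
    (h₁ : ShareCM (deriv f) (fun z => f (z + c) - f z) a₁)
    (h₂ : ShareCM (deriv f) (fun z => f (z + c) - f z) a₂)
    (h₃ : ShareInfCM (deriv f) (fun z => f (z + c) - f z)) :
    deriv f =ᶠ[codiscrete ℂ] fun z => f (z + c) - f z := by
  have _ := hc
  obtain ⟨F, hF, hnh, hcod⟩ := entire_version hf (nopole hf h₃)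
  have hd : ∀ z, deriv f =ᶠ[𝓝[≠] z] deriv F := fun z => (hnh z).nhdsNE_deriv
  have hsh : ∀ z, (fun w => f (w + c) - f w) =ᶠ[𝓝[≠] z] fun w => F (w + c) - F w :=
    fun z => (shift_ev hnh c z).sub (hnh z)
  have htr : ∀ a, ShareCM (deriv f) (fun z => f (z + c) - f z) a →
      ShareCM (deriv F) (fun z => F (z + c) - F z) a := by
    intro a h z
    have h1 := h z
    have q1 : meromorphicOrderAt (fun w => deriv f w - a) z =
        meromorphicOrderAt (fun w => deriv F w - a) z :=
      meromorphicOrderAt_congr ((hd z).sub (EventuallyEq.refl _ fun _ => a))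
    have q2 : meromorphicOrderAt (fun w => f (w + c) - f w - a) z =
        meromorphicOrderAt (fun w => F (w + c) - F w - a) z :=
      meromorphicOrderAt_congr ((hsh z).sub (EventuallyEq.refl _ fun _ => a))
    rw [q1, q2] at h1
    exact h1
  have hρF : hyperOrder F = ⊤ := by rw [← hyperOrder_congr hcod]; exact hρ
  have hdF : Differentiable ℂ (deriv F) := fun z => ((hF.analyticAt z).deriv).differentiableAt
  have hsF : Differentiable ℂ (fun z => F (z + c) - F z) :=
    (hF.comp (differentiable_id.add_const c)).sub hF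
  have hnc : ∀ a : ℂ, ∃ z, deriv F z ≠ a := by
    intro a
    by_contra hcon
    push Not at hcon
    have h4 : E4 (deriv F) := by
      have h5 : E4 (fun z => a + 0 * (fun _ : ℂ => (0 : ℂ)) z) :=
        E4.affine ⟨1, one_pos, fun z => by rw [norm_zero]; positivity⟩ a 0
      have h6 : deriv F = fun z => a + 0 * (fun _ : ℂ => (0 : ℂ)) z := by
        funext z
        rw [hcon z]; simp
      rw [h6]; exact h5
    exact E4.hyperOrder_ne_top hF (E4.prim hF h4) hρF
  have hmain : ∀ z, deriv F z = F (z + c) - F z := by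
    by_contra hcon
    push Not at hcon
    obtain ⟨z0, hz0⟩ := hcon
    obtain ⟨U, hU, hUe⟩ := exp_quot hdF hsF (htr a₁ h₁) (hnc a₁)
    obtain ⟨V, hV, hVe⟩ := exp_quot hdF hsF (htr a₂ h₂) (hnc a₂)
    have hD : a₂ - a₁ ≠ 0 := sub_ne_zero.2 ha.symm
    set H : ℂ → ℂ := fun z => (deriv F z - a₁) / (a₂ - a₁) with hH
    set G : ℂ → ℂ := fun z => (F (z + c) - F z - a₁) / (a₂ - a₁) with hG
    have hHd : Differentiable ℂ H := (hdF.sub_const a₁).div_const _
    have hGd : Differentiable ℂ G := (hsF.sub_const a₁).div_const _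
    have e1 : ∀ z, H z = cexp (U z) * G z := by
      intro z
      have h := hUe z
      simp only [hH, hG]
      rw [h]; ring
    have e2 : ∀ z, H z - 1 = cexp (V z) * (G z - 1) := by
      intro z
      have h := hVe z
      have h6 : H z - 1 = (deriv F z - a₂) / (a₂ - a₁) := by
        simp only [hH]; field_simp; ring
      have h7 : G z - 1 = (F (z + c) - F z - a₂) / (a₂ - a₁) := by
        simp only [hG]; field_simp; ring
      rw [h6, h7, h]; ring
    have e3 : ∀ z, H (z + c) - H z = deriv G z := by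
      intro z
      have h8 : HasDerivAt G ((deriv F (z + c) - deriv F z) / (a₂ - a₁)) z := by
        have h9 : HasDerivAt (fun w => F (w + c)) (deriv F (z + c)) z :=
          (hF (z + c)).hasDerivAt.comp_add_const z c
        exact ((h9.sub (hF z).hasDerivAt).sub_const a₁).div_const _
      rw [h8.deriv]
      simp only [hH]
      ring
    have hne : ∃ z, H z ≠ G z := by
      refine ⟨z0, fun h => hz0 ?_⟩
      simp only [hH, hG] at h
      rw [div_left_inj' hD, sub_left_inj] at h
      exact h
    obtain ⟨hPU, hPV⟩ := core hU hV hGd e1 e2 e3 hne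
    have hst : ∀ z, (cexp (U z) - cexp (V z)) * H z = cexp (U z) * (1 - cexp (V z)) := by
      intro z
      have g1 := e1 z
      have g2 := e2 z
      linear_combination (-cexp (V z)) * g1 + cexp (U z) * g2
    have hs0 : ∃ z, cexp (U z) - cexp (V z) ≠ 0 := by
      by_contra hcon
      push Not at hcon
      obtain ⟨z1, hz1⟩ := hne
      have g1 := hst z1
      rw [hcon z1, zero_mul] at g1
      have g2 : 1 - cexp (V z1) = 0 := by
        rcases mul_eq_zero.1 g1.symm with h | h
        · exact absurd h (Complex.exp_ne_zero _)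
        · exact h
      have g3 := e2 z1
      rw [show cexp (V z1) = 1 by linear_combination -g2, one_mul] at g3
      exact hz1 (by linear_combination g3)
    have hE : E4 H := E4.quot (s := fun z => cexp (U z) - cexp (V z))
      (t := fun z => cexp (U z) * (1 - cexp (V z))) hHd
      (hU.cexp.sub hV.cexp) (hU.cexp.mul (hV.cexp.const_sub 1)) hst hs0
      (E4.sub (E4.cexp hPU) (E4.cexp hPV))
      (E4.mul (E4.cexp hPU) (E4.sub ⟨1, one_pos, fun z => by
        rw [norm_one]; exact Real.one_le_exp (by positivity)⟩ (E4.cexp hPV)))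
    have hE2 : E4 (deriv F) := by
      have h5 := E4.affine hE a₁ (a₂ - a₁)
      have h6 : deriv F = fun z => a₁ + (a₂ - a₁) * H z := by
        funext z
        simp only [hH]
        field_simp
        ring
      rw [h6]; exact h5
    exact E4.hyperOrder_ne_top hF (E4.prim hF hE2) hρF
  have hfin : {w | deriv f w = f (w + c) - f w} ∈ codiscrete ℂ := by
    refine mem_codiscreteWithin_iff_forall_mem_nhdsNE.2 ?_
    intro z _
    rw [compl_univ, union_empty]
    filter_upwards [hd z, hsh z] with w hw1 hw2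
    show deriv f w = f (w + c) - f w
    rw [hw1, hmain w]
    exact hw2.symm
  exact hfin

end Pool.Agent.Results.MP_6db049_an.InfiniteHyperOrder
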